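import Pool.Agent.H78.SF.CN3
import Pool.Agent.H3.S2.Tg

/-!
# MP_70ba79_ag, THEOREM S, part 2, CNE: second reduction of the denominators
-/

set_option autoImplicit false

namespace Pool.Agent.H60.S2

open MvPolynomial SC Pool.Agent.H27.LV
open Pool.Agent.H84.SM (dp cr dt)
open Pool.Agent.H92.SF Pool.Agent.H3.SF Pool.Agent.H3.S2
open Pool.Agent.H78.SF

theorem pf_CNE (hCNC : T_CNC) (hSF1 : T_SF1) (hSFW : T_SFW) (hCLS : T_CLS) (hVRI : T_VRI)
    (hNGD : T_NGD) (hGVM : T_GVM) (hDCF : T_DCF) : T_CNE := by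
  intro k F _ _ _ _ _ u dd δ j0 c0 J hS m G sg S hm hG b h H hb hH hH0 hlt hA hB a0
  obtain ⟨-, hu, hpu, hdp, -, hdd, -⟩ := hSF1 k F u dd δ j0 c0 J hS
  obtain ⟨-, hJd, hJdd, -, -, -⟩ := hSFW k F u dd δ j0 c0 J hS m G hG.toCrw
  have hCN := (hCNC k F u dd δ j0 c0 J hS m G (by omega) hG.toCrw b hb).2
  -- the cubic form
  have hb2 : C (aeval u J ^ 6 * aeval u H * G) * b ∈ IP (k := k) u := by
    rw [mem_IP]
    intro a
    rw [coeff_C_mul]
    exact hB a
  obtain ⟨b2, hb2⟩ := hb2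
  have hb2c : ∀ a, ((b2.coeff a : Bb k u) : F) = aeval u J ^ 6 * aeval u H * G * b.coeff a := by
    intro a
    have h1 := congrArg (coeff a) hb2
    rw [coeff_map, coeff_C_mul] at h1
    exact h1
  by_contra hnot
  obtain ⟨z0, hz0⟩ : ∃ z0 : Bb k u, z0 = (⟨aeval u J, hpu J⟩ : Bb k u) *
      (⟨aeval u S, hpu S⟩ : Bb k u) ^ 2 * b2.coeff a0 := ⟨_, rfl⟩
  have hz0c : (z0 : F) / G = aeval u J ^ 7 * aeval u H * aeval u S ^ 2 * b.coeff a0 := by
    rw [hz0]
    change aeval u J * aeval u S ^ 2 * ((b2.coeff a0 : Bb k u) : F) / G = _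
    rw [hb2c, div_eq_iff hG.ne]
    ring
  obtain ⟨LL, _, _, π, v, EL, d, hD, hπz⟩ := hDCF k F u dd δ j0 c0 J hS m G (by omega)
    hG.toCrw hG.red z0 (by rw [hz0c]; exact hnot)
  have hcz : CharZero LL := charZero_of_injective_algebraMap (algebraMap k LL).injective
  rw [hz0, map_mul, map_mul, map_pow] at hπz
  have hπJ : π ⟨aeval u J, hpu J⟩ ≠ 0 := fun h1 => hπz (by rw [h1, zero_mul, zero_mul])
  have hπS : π ⟨aeval u S, hpu S⟩ ≠ 0 := fun h1 => hπz (by
    rw [h1, zero_pow two_ne_zero, mul_zero, zero_mul])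
  have hπb : π (b2.coeff a0) ≠ 0 := fun h1 => hπz (by rw [h1, mul_zero])
  have hπG : π ⟨G, hG.itg⟩ = 0 := by
    apply hD.ker
    have h1 : ((⟨G, hG.itg⟩ : Bb k u) : F) / G = 1 := div_self hG.ne
    rw [h1]
    exact (Bb k u).one_mem
  set gg : Fin 3 → LL := fun l => π ⟨aeval u J * dd l G, hJd l⟩ with hgg
  set g : Fin 3 → LL := fun l => gg l * (π ⟨aeval u J, hpu J⟩)⁻¹ with hg
  -- the certificate
  obtain ⟨c, hc⟩ := hG.cert
  have hcert : ∀ i, ∃ e : Fin 3 → LL, (∀ l, Itg k v (e l)) ∧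
      π ⟨aeval u S, hpu S⟩ * π ⟨u i, hu i⟩ ^ c = ∑ l, e l * g l := by
    intro i
    obtain ⟨e, he, heq⟩ := hc i
    refine ⟨fun l => π ⟨e l, (he l).1⟩, fun l => hD.itg _, ?_⟩
    have h1 : (⟨aeval u J, hpu J⟩ : Bb k u) * ((⟨aeval u S, hpu S⟩ : Bb k u) *
        (⟨u i, hu i⟩ : Bb k u) ^ c) =
        ∑ l, (⟨e l, (he l).1⟩ : Bb k u) * ⟨aeval u J * dd l G, hJd l⟩ := by
      apply Subtype.ext
      rw [AddSubmonoidClass.coe_finsetSum]
      change aeval u J * (aeval u S * u i ^ c) = ∑ l, e l * (aeval u J * dd l G)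
      rw [heq, Finset.mul_sum]
      refine Finset.sum_congr rfl fun l _ => ?_
      ring
    have h2 := congrArg π h1
    rw [map_mul, map_mul, map_pow, map_sum] at h2
    simp only [map_mul] at h2
    apply mul_left_cancel₀ hπJ
    rw [h2, Finset.mul_sum]
    refine Finset.sum_congr rfl fun l _ => ?_
    rw [hg, hgg]
    simp only
    field_simp
  set bb : MvPolynomial (Fin 3) LL := map (π : Bb k u →+* LL) b2 with hbb
  have hbbc : ∀ a, bb.coeff a = π (b2.coeff a) := fun a => coeff_map _ _ _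
  suffices hmain : bb = 0 by
    apply hπb
    rw [← hbbc, hmain, coeff_zero]
  let gx' : Fin 3 → MvPolynomial (Fin 3) (Bb k u) :=
    cr (fun l => C (⟨aeval u J * dd l G, hJd l⟩ : Bb k u)) X
  have hgx1 : ∀ i, map (vl u) (gx' i) = C (aeval u J) * gx dd G i := by
    intro i
    change map (vl u) (cr (fun l => C (⟨aeval u J * dd l G, hJd l⟩ : Bb k u)) X i) = _
    unfold cr gx cr grd
    simp only [map_sub, map_mul, map_C, map_X]
    change C (aeval u J * dd (i + 1) G) * X (i + 2) - C (aeval u J * dd (i + 2) G) * X (i + 1) = _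
    rw [C_mul, C_mul]
    ring
  have hgx2 : ∀ i, map (π : Bb k u →+* LL) (gx' i) = gcx gg i := by
    intro i
    change map (π : Bb k u →+* LL)
      (cr (fun l => C (⟨aeval u J * dd l G, hJd l⟩ : Bb k u)) X i) = _
    unfold cr gcx cr
    simp only [map_sub, map_mul, map_C, map_X]
    rfl
  have hi : bind₁ (gcx gg) bb = 0 := by
    obtain ⟨M, hM, hM2⟩ := part_i u dd J H G b hb.hb hu (hpu J) (hpu H) hG.itg hG.ne hJd hJdd hA
    have h1 := map_zero_of π ⟨G, hG.itg⟩ hπG (bind₁ gx' b2) M hM (by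
      rw [map_bind₁, hb2]
      simp only [hgx1]
      exact hM2)
    rw [map_bind₁] at h1
    simp only [hgx2] at h1
    exact h1
  have hii : ∀ l, gg l ≠ 0 → bind₁ (gcx gg) (pderiv l bb) = 0 := by
    intro l hl
    have hl0 : dd l G ≠ 0 := by
      intro h1
      apply hl
      have h2 : (⟨aeval u J * dd l G, hJd l⟩ : Bb k u) = 0 := by
        apply Subtype.ext
        change aeval u J * dd l G = 0
        rw [h1, mul_zero]
      rw [hgg]
      simp only
      rw [h2, map_zero]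
    obtain ⟨M, hM, hM2⟩ := part_ii u dd J H m G b hb.hb hu (hpu J) (hpu H) hG.ne hJd hJdd hA hCN
      l hl0
    have h1 := map_zero_of π ⟨G, hG.itg⟩ hπG (C (m : Bb k u) * bind₁ gx' (pderiv l b2)) M hM (by
      rw [map_mul, map_C, map_natCast, map_bind₁, ← pderiv_map, hb2]
      simp only [hgx1]
      exact hM2)
    rw [map_mul, map_C, map_bind₁, ← pderiv_map, map_natCast] at h1
    simp only [hgx2] at h1
    rcases mul_eq_zero.1 h1 with h2 | h2
    · rw [C_eq_zero] at h2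
      have h3 : (m : LL) ≠ 0 := Nat.cast_ne_zero.2 (by omega)
      exact absurd h2 h3
    · exact h2
  -- values of `u` on the curve
  have hvu : ∀ i, ∃ a : Fin 3 → k, v i = ∑ j, a j • π ⟨u j, hu j⟩ := by
    intro i
    obtain ⟨a, b', hb', hv⟩ := hD.lin i
    refine ⟨a, ?_⟩
    have h1 : b' = ∑ j, a j • (⟨u j, hu j⟩ : Bb k u) := by
      apply Subtype.ext
      rw [AddSubmonoidClass.coe_finsetSum, hb']
      rfl
    rw [hv, h1, map_sum]
    refine Finset.sum_congr rfl fun j _ => ?_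
    rw [map_smul]
  -- some derivative of `G` is not zero on the curve
  obtain ⟨l, hl⟩ : ∃ l, gg l ≠ 0 := by
    by_contra hno
    push Not at hno
    have hg0 : ∀ l, g l = 0 := by
      intro l
      rw [hg]
      simp only
      rw [hno, zero_mul]
    have hu0 : ∀ i, π ⟨u i, hu i⟩ = 0 := by
      intro i
      obtain ⟨e, -, he⟩ := hcert i
      simp only [hg0, mul_zero, Finset.sum_const_zero] at he
      have he' := (mul_eq_zero.1 he).resolve_left hπS
      have hc0 : c ≠ 0 := by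
        intro h1
        rw [h1, pow_zero] at he'
        exact one_ne_zero he'
      exact (pow_eq_zero_iff hc0).1 he'
    obtain ⟨a, ha⟩ := hvu 0
    simp only [hu0, smul_zero, Finset.sum_const_zero] at ha
    exact hD.hd.ind.ne_zero 0 ha
  obtain ⟨M, hM⟩ := sq_dvd gg l hl bb hi (hii l hl)
  set Λ : MvPolynomial (Fin 3) LL := C (π ⟨aeval u J, hpu J⟩ ^ 2) * M with hΛ
  have hgg2 : gg = fun i => π ⟨aeval u J, hpu J⟩ * g i := by
    funext i
    rw [hg]
    simp only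
    field_simp
  have hbΛ : lf3 g ^ 2 * Λ = bb := by
    rw [hM, hΛ]
    conv_rhs => rw [hgg2]
    rw [lf3_smul, C_pow]
    ring
  have hgl : ∃ l, g l ≠ 0 := ⟨l, mul_ne_zero hl (inv_ne_zero hπJ)⟩
  -- homogeneity
  have hmπ : ∀ (t : ℤ) (z : Bb k u), Hm k (eu u dd) t (z : F) → Hm k EL t (π z) := by
    intro t z hz
    have h1 := hD.eul z ((t : Bb k u) * z) (by
      rw [hz]
      push_cast
      rfl)
    unfold Hm
    rw [h1, map_mul, map_intCast]
  have hJh := hm_form u dd hdp j0 J hS.Jh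
  have hHh := hm_form u dd hdp h H hH
  have hSh := hm_form u dd hdp sg S hG.Sh
  have hbbh : ∀ a, Hm k EL (6 * j0 + h + m) (bb.coeff a) := by
    intro a
    rw [hbbc]
    apply hmπ
    rw [hb2c]
    have h1 := Hm_mul (Hm_mul (Hm_mul (Hm_pow hJh 6) hHh) hG.hom) (hb.hm a)
    rw [add_zero] at h1
    exact_mod_cast h1
  have hgh : ∀ i, Hm k EL ((m : ℤ) - 1) (g i) := by
    intro i
    have h1 : Hm k EL (j0 + ((m : ℤ) - 1)) (gg i) :=
      hmπ _ ⟨aeval u J * dd i G, hJd i⟩ (Hm_mul hJh (hdd m G i hG.hom))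
    have h2 := Hm_mul h1 (Hm_inv (hmπ j0 ⟨aeval u J, hpu J⟩ hJh))
    have h3 : (j0 : ℤ) + ((m : ℤ) - 1) + -(j0 : ℤ) = (m : ℤ) - 1 := by ring
    rw [h3] at h2
    exact h2
  have hΛh : ∀ a, Hm k EL ((6 * j0 + h + m : ℤ) - (2 : ℕ) * ((m : ℤ) - 1)) (Λ.coeff a) := by
    intro a
    obtain ⟨l', hl'⟩ := hgl
    exact hm_quot EL _ _ 2 (lf3 g) Λ bb (lf3_ne g l' hl')
      (fun a => lf3_coeff g a (fun z => Hm k EL ((m : ℤ) - 1) z) (Hm_zero _) hgh) hbbh hbΛ a
  have hΛh' : ∀ a, Hm k EL ((2 : ℕ) * sg + ((6 * j0 + h + m : ℤ) - (2 : ℕ) * ((m : ℤ) - 1)))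
      (π ⟨aeval u S, hpu S⟩ ^ 2 * Λ.coeff a) := fun a =>
    Hm_mul (Hm_pow (hmπ sg ⟨aeval u S, hpu S⟩ hSh) 2) (hΛh a)
  -- integrality
  have hΛi : ∀ a, Itg k v (π ⟨aeval u S, hpu S⟩ ^ 2 * Λ.coeff a) := by
    intro a
    rw [hVRI k LL 2 v le_rfl hD.hd.ind]
    intro o ho
    have hin : ∀ z, Itg k v z → z ∈ o := fun z hz =>
      (hVRI k LL 2 v le_rfl hD.hd.ind z).1 hz o ho
    obtain ⟨i, hi0, hi1⟩ := ho.unit
    obtain ⟨a', ha'⟩ := hvu i
    obtain ⟨j, hj0, hj1⟩ := exists_unit o ho.con (fun j => π ⟨u j, hu j⟩)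
      (fun j => hin _ (hD.itg _)) a' (v i) ha' hi0 hi1
    obtain ⟨e, he, heq⟩ := hcert j
    have heq' : π ⟨u j, hu j⟩ ^ c = ∑ l, e l * (g l / π ⟨aeval u S, hpu S⟩) := by
      apply mul_left_cancel₀ hπS
      rw [heq, Finset.mul_sum]
      refine Finset.sum_congr rfl fun l _ => ?_
      field_simp
    obtain ⟨l', hl0, hl1, -⟩ := hCLS LL o c (π ⟨u j, hu j⟩) e
      (fun l => g l / π ⟨aeval u S, hpu S⟩) hj0 hj1 (fun l => hin _ (he l)) heq'
    have hl0' : g l' ≠ 0 := by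
      intro h1
      apply hl0
      change g l' / π ⟨aeval u S, hpu S⟩ = 0
      rw [h1, zero_div]
    have h1 := hGVM LL o 3 2 (lf3 g) Λ (fun a => by
      rw [hbΛ, hbbc]
      exact hin _ (hD.itg _)) (fun _ => g l') (fun _ => ⟨Finsupp.single l' 1,
        (lf3_coeff_single g l').symm⟩) a
    rw [Fin.prod_univ_two] at h1
    have h2 : π ⟨aeval u S, hpu S⟩ ^ 2 * Λ.coeff a = (g l' / π ⟨aeval u S, hpu S⟩)⁻¹ *
        ((g l' / π ⟨aeval u S, hpu S⟩)⁻¹ * (g l' * g l' * Λ.coeff a)) := by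
      field_simp
    rw [h2]
    exact mul_mem hl1 (mul_mem hl1 h1)
  have hΛ0 : Λ = 0 := by
    ext a
    rw [coeff_zero]
    have h1 := (hNGD k LL 2 d v EL hD.hd).1 _ _ (by
      push_cast
      omega) (hΛi a) (hΛh' a)
    exact (mul_eq_zero.1 h1).resolve_left (pow_ne_zero 2 hπS)
  rw [← hbΛ, hΛ0, mul_zero]

end Pool.Agent.H60.S2
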