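import Pool.Agent.H84.S2.TgB
import Pool.Agent.H60.S2.MZB

/-!
# Row B_MZ3 of the board s2l_modules: the theorem for all nodal curves
-/

set_option autoImplicit false

namespace Pool.Agent.H60.S2

open MvPolynomial SC
open Pool.Agent.H27.LV (ge deg poleOrder canDeg DegreeBound)
open Pool.Agent.H84.SM (cr dt dp)
open Pool.Agent.H84.SL (pd)
open Pool.Agent.H3.SF (Itg Bb BB Hm eu grd hes Sfc Crd Crf Prm nv)
open Pool.Agent.H84.SF
open Pool.Agent.H3.S2
open Pool.Agent.H84.S2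
open Pool.Agent.H17.SD (Prj Smo HRel)

/-- the cardinality of a set of different nodes is bounded -/
theorem nset_le {k F σ : Type} [Field k] [Field F] [Algebra k F] [Fintype σ] {X : σ → F}
    {GP : MvPolynomial σ k} {T0 : Finset (σ → k)}
    (h0 : ∀ s : σ → k, s ≠ 0 → Cone X s → eval s GP = 0 → Nod X GP s → ∃ t ∈ T0, ∃ μ : k, μ ≠ 0 ∧
      s = μ • t) {T : Finset (σ → k)} (hT : NSet X GP T) : T.card ≤ T0.card := by
  classical
  have h1 : ∀ s : T, ∃ t : T0, ∃ μ : k, μ ≠ 0 ∧ (s : σ → k) = μ • (t : σ → k) := fun s => by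
    obtain ⟨h2, h3, h4, h5⟩ := hT.nod s s.2
    obtain ⟨t, ht, μ, hμ, hs⟩ := h0 s h2 h3 h4 h5
    exact ⟨⟨t, ht⟩, μ, hμ, hs⟩
  choose f hf using h1
  have hinj : Function.Injective f := by
    intro s s' hss
    obtain ⟨μ, hμ, h2⟩ := hf s
    obtain ⟨μ', hμ', h3⟩ := hf s'
    rw [← hss] at h3
    apply Subtype.ext
    refine hT.inj s s.2 s' s'.2 (μ * μ'⁻¹) ?_
    rw [h3, smul_smul, mul_assoc, inv_mul_cancel₀ hμ', mul_one]
    exact h2
  have := Fintype.card_le_of_injective f hinj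
  simpa using this

/-- a set of different nodes which meets all the lines of nodes -/
theorem nset_max {k F σ : Type} [Field k] [Field F] [Algebra k F] [Fintype σ] {X : σ → F}
    {GP : MvPolynomial σ k} {T0 : Finset (σ → k)}
    (h0 : ∀ s : σ → k, s ≠ 0 → Cone X s → eval s GP = 0 → Nod X GP s → ∃ t ∈ T0, ∃ μ : k, μ ≠ 0 ∧
      s = μ • t) : ∃ T : Finset (σ → k), NSet X GP T ∧ ∀ s : σ → k, s ≠ 0 → Cone X s →
      eval s GP = 0 → Nod X GP s → ∃ t ∈ T, ∃ c : k, s = c • t := by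
  classical
  have hfin : ({n : ℕ | ∃ T : Finset (σ → k), NSet X GP T ∧ T.card = n}).Finite :=
    (Set.finite_Iic T0.card).subset (by
      rintro n ⟨T, hT, rfl⟩
      exact nset_le h0 hT)
  have hne : ({n : ℕ | ∃ T : Finset (σ → k), NSet X GP T ∧ T.card = n}).Nonempty :=
    ⟨0, ∅, ⟨by simp, by simp⟩, rfl⟩
  obtain ⟨n, ⟨T, hT, hTn⟩, hmax⟩ := Set.exists_max_image _ (fun n => n) hfin hne
  refine ⟨T, hT, ?_⟩
  intro s hs hc hG hN
  by_contra hcon
  push Not at hcon
  have hsT : s ∉ T := fun h => hcon s h 1 (by rw [one_smul])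
  have h3 : NSet X GP (insert s T) := by
    refine ⟨?_, ?_⟩
    · intro t ht
      rcases Finset.mem_insert.1 ht with rfl | ht
      · exact ⟨hs, hc, hG, hN⟩
      · exact hT.nod t ht
    · intro a ha b hb e hab
      rcases Finset.mem_insert.1 ha with ha1 | ha1
      · rcases Finset.mem_insert.1 hb with hb1 | hb1
        · rw [ha1, hb1]
        · rw [ha1] at hab
          exact absurd hab (hcon b hb1 e)
      · rcases Finset.mem_insert.1 hb with hb1 | hb1
        · rw [hb1] at hab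
          have he : e ≠ 0 := by
            rintro rfl
            rw [zero_smul] at hab
            exact (hT.nod a ha1).1 hab
          exact absurd (by rw [hab, smul_smul, inv_mul_cancel₀ he, one_smul] : s = e⁻¹ • a)
            (hcon a ha1 e⁻¹)
        · exact hT.inj a ha1 b hb1 e hab
  have h4 := hmax _ ⟨insert s T, h3, rfl⟩
  rw [Finset.card_insert_of_notMem hsT, ← hTn] at h4
  omega

theorem pf_MZ3 (hMZ2 : T_MZ2) (hMZB : T_MZB) (hFND : T_FND)
    (hCRQ : Pool.Agent.H3.S2.T_CRQ) : T_MZ3 := by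
  classical
  intro δ j0 c0
  obtain ⟨N, hN⟩ := hMZ2 δ j0 c0
  obtain ⟨m1, hm1⟩ := hMZB δ j0 c0 ((4 * (N + 1) * (δ + 1)) ^ 2)
  refine ⟨max m1 (2 * N + 1), ?_⟩
  intro k F σ _ _ _ _ _ _ _ X u θ dd J c hX hS m GP hm hC
  have hm2 : m1 ≤ m := le_trans (le_max_left _ _) hm
  have hm3 : 2 * N + 1 ≤ m := le_trans (le_max_right _ _) hm
  have hspan : ∀ a : F, a ∈ Submodule.span k (Set.range X) → a ∈ Algebra.adjoin k (Set.range X) := by
    intro a ha
    exact Algebra.span_le_adjoin k (Set.range X) ha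
  have hU : ∀ l, ∃ U : MvPolynomial σ k, U.IsHomogeneous 1 ∧ aeval X U = u l := fun l => by
    refine ⟨∑ s, C (c l s) * MvPolynomial.X s, ?_, ?_⟩
    · refine IsHomogeneous.sum _ _ _ fun s _ => ?_
      have := (isHomogeneous_C σ (c l s)).mul (isHomogeneous_X k s)
      rwa [zero_add] at this
    · rw [map_sum, hS.lin l]
      refine Finset.sum_congr rfl fun s _ => ?_
      rw [map_mul, aeval_C, aeval_X, Algebra.smul_def]
  have hY : SYd X u dd J j0 := by
    refine ⟨hS.sfc.ind, hS.sfc.du, hS.sfc.comm, hU, hS.prj.Xint, hS.prj.Xeu, hS.sfc.Jh, hS.sfc.J0,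
      ?_, fun a l => hS.sfc.Jd l a⟩
    intro a ha
    have h1 := hS.prj.JI a ha
    refine (Algebra.adjoin_le ?_ : Pool.Agent.H17.SD.PB k u θ ≤ _) h1
    intro b hb
    rcases hb with rfl | ⟨l, rfl⟩
    · exact hspan _ hS.prj.tlin
    · exact hspan _ (hS.prj.ulin l)
  obtain ⟨T0, hT0⟩ := hFND k F σ X u dd J j0 hY m GP hC.hom
  obtain ⟨T, hT, hTm⟩ := nset_max hT0
  by_cases hcard : m ^ 2 ≤ (4 * (N + 1) * (δ + 1)) ^ 2 * T.card
  · exact hm1 k F σ X u θ dd J c hS m GP hm2 hC T hT hcard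
  · push Not at hcard
    obtain ⟨a, ha⟩ : ∃ a : ℕ, a = m / (4 * (N + 1) * (δ + 1)) := ⟨_, rfl⟩
    have hpos : 0 < 4 * (N + 1) * (δ + 1) := by positivity
    have ha1 : a * (4 * (N + 1) * (δ + 1)) ≤ m := by
      rw [ha]
      exact Nat.div_mul_le_self _ _
    have ha2 : m < (a + 1) * (4 * (N + 1) * (δ + 1)) := by
      rw [ha]
      have h1 := Nat.div_add_mod m (4 * (N + 1) * (δ + 1))
      have h2 := Nat.mod_lt m hpos
      calc m = 4 * (N + 1) * (δ + 1) * (m / (4 * (N + 1) * (δ + 1))) +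
          m % (4 * (N + 1) * (δ + 1)) := h1.symm
        _ < 4 * (N + 1) * (δ + 1) * (m / (4 * (N + 1) * (δ + 1))) +
          4 * (N + 1) * (δ + 1) := by omega
        _ = (m / (4 * (N + 1) * (δ + 1)) + 1) * (4 * (N + 1) * (δ + 1)) := by ring
    have hTa : T.card < (a + 1) ^ 2 := by
      have h1 : (4 * (N + 1) * (δ + 1)) ^ 2 * T.card <
          (4 * (N + 1) * (δ + 1)) ^ 2 * (a + 1) ^ 2 := by
        refine lt_trans hcard ?_
        have h2 := Nat.pow_lt_pow_left ha2 (two_ne_zero)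
        rw [mul_pow, mul_comm] at h2
        exact h2
      exact lt_of_mul_lt_mul_left h1 (Nat.zero_le _)
    obtain ⟨Q, hQ, hQ0, hQv⟩ := qex X u hS.sfc.ind hU T a hTa
    have hndq : Ndq X GP Q := by
      intro s hs h1 h2
      rcases hC.ndl s hs h1 h2 with h3 | h3
      · exact Or.inl h3
      · right
        refine ⟨h3, ?_⟩
        obtain ⟨t, ht, e, hst⟩ := hTm s hs ⟨fun f d hf => hX.hmg f hf d, h1⟩ h2 h3
        rw [hst]
        exact hQv t ht e
    obtain ⟨S, b, hcrs, -⟩ := hCRQ k F σ X hX u θ dd δ j0 c0 J hS.sfc hS.prj m GP (2 * a) Q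
      (by omega) hC.hom hC.ne hQ hQ0 hndq
    have hthr : N * (δ * (2 * a) + 1) ≤ m := by
      have h1 : 2 * (N * (δ * (2 * a))) ≤ a * (4 * (N + 1) * (δ + 1)) := by
        have h2 : N * δ ≤ (N + 1) * (δ + 1) :=
          Nat.mul_le_mul (Nat.le_succ N) (Nat.le_succ δ)
        calc 2 * (N * (δ * (2 * a))) = 4 * a * (N * δ) := by ring
          _ ≤ 4 * a * ((N + 1) * (δ + 1)) := Nat.mul_le_mul_left _ h2
          _ = a * (4 * (N + 1) * (δ + 1)) := by ring
      have h2 : N * (δ * (2 * a) + 1) = N * (δ * (2 * a)) + N := by ring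
      omega
    obtain ⟨B1, hB1⟩ := hN k F σ X u θ dd J c hS m GP (δ * (2 * a)) S hthr
      ⟨hC.hom, hcrs, hC.ndl⟩
    refine ⟨B1 + δ * (2 * a), ?_⟩
    intro K _ _ _ htr D hD z Sp hz hJ
    have hmx : (1 : ℤ) ≤ max 1 (canDeg D + Sp.card) := le_max_left _ _
    by_cases hSz : aeval (lin c z) S = 0
    · refine ⟨δ * (2 * a), S, ?_, hcrs.S0, hcrs.Sh, hSz⟩
      have h5 : ((δ * (2 * a) : ℕ) : ℤ) * 1 ≤ ((B1 + δ * (2 * a) : ℕ) : ℤ) *
          max 1 (canDeg D + Sp.card) := by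
        apply mul_le_mul
        · exact_mod_cast Nat.le_add_left _ _
        · exact hmx
        · norm_num
        · positivity
      rwa [mul_one] at h5
    · obtain ⟨e, Φ, he, h1, h2, h3⟩ := hB1 K htr D hD z Sp hz hJ hSz
      refine ⟨e, Φ, le_trans he ?_, h1, h2, h3⟩
      apply mul_le_mul_of_nonneg_right _ (by omega)
      exact_mod_cast Nat.le_add_right _ _

end Pool.Agent.H60.S2
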