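import Pool.Agent.H84.S2.TgC

/-!
# Row B_MZ3 (new form) of the board s2l_modules: the theorem for all nodal curves
-/

set_option autoImplicit false

namespace Pool.Agent.H60.S2

open MvPolynomial SC
open Pool.Agent.H27.LV (ge deg poleOrder canDeg DegreeBound)
open Pool.Agent.H84.SM (cr dt dp)
open Pool.Agent.H84.SL (pd)
open Pool.Agent.H3.SF (Itg Bb BB Hm eu grd hes Sfc Crd Crf Prm nv)
open Pool.Agent.H84.SF
open Pool.Agent.H3.S2
open Pool.Agent.H84.S2
open Pool.Agent.H17.SD (Prj Smo HRel)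

theorem pf_MZ3V (hMZ2 : T_MZ2) (hMZV : T_MZV) (hNGS : T_NGS) (hDIC : T_DIC)
    (hCRQ : Pool.Agent.H3.S2.T_CRQ) : T_MZ3 := by
  classical
  intro δ j0 c0
  obtain ⟨N, hN⟩ := hMZ2 δ j0 c0
  obtain ⟨N1, hN1⟩ : ∃ N1, N1 = 8 * (N + 1) * (δ + 1) := ⟨_, rfl⟩
  obtain ⟨m1, hm1⟩ := hNGS δ j0 c0 (2 * N1 ^ 2)
  refine ⟨max m1 (N1 + 2), ?_⟩
  intro k F σ _ _ _ _ _ _ _ X u θ dd J c hX hS m GP hm hC
  have hm2 : m1 ≤ m := le_trans (le_max_left _ _) hm
  have hm3 : N1 + 2 ≤ m := le_trans (le_max_right _ _) hm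
  have hspan : ∀ a : F, a ∈ Submodule.span k (Set.range X) → a ∈ Algebra.adjoin k (Set.range X) := by
    intro a ha
    exact Algebra.span_le_adjoin k (Set.range X) ha
  have hcor : Cor X u dd J := by
    refine ⟨fun l => ⟨∑ s, C (c l s) * MvPolynomial.X s, ?_, ?_⟩, hS.prj.Xint, hS.prj.Xeu, ?_⟩
    · refine IsHomogeneous.sum _ _ _ fun s _ => ?_
      have := (isHomogeneous_C σ (c l s)).mul (isHomogeneous_X k s)
      rwa [zero_add] at this
    · rw [map_sum, hS.lin l]
      refine Finset.sum_congr rfl fun s _ => ?_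
      rw [map_mul, aeval_C, aeval_X, Algebra.smul_def]
    · intro a ha
      have h1 := hS.prj.JI a ha
      refine (Algebra.adjoin_le ?_ : Pool.Agent.H17.SD.PB k u θ ≤ _) h1
      intro b hb
      rcases hb with rfl | ⟨l, rfl⟩
      · exact hspan _ hS.prj.tlin
      · exact hspan _ (hS.prj.ulin l)
  have hlin : u = fun l => ∑ i, c l i • X i := funext hS.lin
  -- numerics
  have hpos : 0 < N1 := by rw [hN1]; positivity
  obtain ⟨r, hr⟩ : ∃ r : ℕ, r = m / N1 := ⟨_, rfl⟩
  have hr1 : r * N1 ≤ m := by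
    rw [hr]
    exact Nat.div_mul_le_self _ _
  have hr2 : m < (r + 1) * N1 := by
    rw [hr]
    have h1 := Nat.div_add_mod m N1
    have h2 := Nat.mod_lt m hpos
    calc m = N1 * (m / N1) + m % N1 := h1.symm
      _ < N1 * (m / N1) + N1 := by omega
      _ = (m / N1 + 1) * N1 := by ring
  rcases hDIC k F σ X c GP r with ⟨q0, hq0, hq1, hq2⟩ | ⟨T, hT, hcard⟩
  · -- a form of degree `r` vanishes at all nodes
    obtain ⟨Q, hQd⟩ : ∃ Q : MvPolynomial σ k, Q = aeval (fun l => ∑ i, C (c l i) * MvPolynomial.X i) q0 :=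
      ⟨_, rfl⟩
    have hlh : ∀ l, (∑ i, C (c l i) * MvPolynomial.X i : MvPolynomial σ k).IsHomogeneous 1 := fun l => by
      refine IsHomogeneous.sum _ _ _ fun s _ => ?_
      have := (isHomogeneous_C σ (c l s)).mul (isHomogeneous_X k s)
      rwa [zero_add] at this
    have hQ : Q.IsHomogeneous r := by
      rw [hQd]
      have := hq0.aeval (fun l => ∑ i, C (c l i) * MvPolynomial.X i) hlh
      rwa [one_mul] at this
    have hQX : aeval X Q = aeval u q0 := by
      rw [hQd, comp_aeval_apply]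
      congr 2
      funext l
      rw [map_sum, hS.lin l]
      refine Finset.sum_congr rfl fun s _ => ?_
      rw [map_mul, aeval_C, aeval_X, Algebra.smul_def]
    have hQ0 : aeval X Q ≠ 0 := by
      rw [hQX]
      intro h
      exact hq1 (hS.sfc.ind (by rw [h, map_zero]))
    have hQe : ∀ s : σ → k, eval s Q = eval (fun l => ∑ i, c l i * s i) q0 := by
      intro s
      rw [hQd, ← coe_aeval_eq_eval, ← coe_aeval_eq_eval]
      simp only [RingHom.coe_coe]
      rw [comp_aeval_apply]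
      congr 2
      funext l
      rw [map_sum]
      refine Finset.sum_congr rfl fun i _ => ?_
      rw [map_mul, aeval_C, aeval_X]
      rfl
    have hndq : Ndq X GP Q := by
      intro s hs h1 h2
      rcases hC.ndl s hs h1 h2 with h3 | h3
      · exact Or.inl h3
      · right
        refine ⟨h3, ?_⟩
        rw [hQe]
        exact hq2 s hs ⟨fun f d hf => hX.hmg f hf d, h1⟩ h2 h3
    obtain ⟨S, b, hcrs, -⟩ := hCRQ k F σ X hX u θ dd δ j0 c0 J hS.sfc hS.prj m GP r Q
      (by omega) hC.hom hC.ne hQ hQ0 hndq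
    have hthr : N * (δ * r + 1) ≤ m := by
      have h1 : N * (δ * r) ≤ r * ((N + 1) * (δ + 1)) := by
        calc N * (δ * r) = r * (N * δ) := by ring
          _ ≤ r * ((N + 1) * (δ + 1)) := Nat.mul_le_mul_left _
              (Nat.mul_le_mul (Nat.le_succ N) (Nat.le_succ δ))
      have h2 : N * (δ * r + 1) = N * (δ * r) + N := by ring
      have h3 : r * N1 = 8 * (r * ((N + 1) * (δ + 1))) := by rw [hN1]; ring
      have h4 : 2 * N ≤ N1 := by
        rw [hN1]
        have : 1 * 1 ≤ (δ + 1) * 1 := by omega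
        calc 2 * N ≤ 8 * (N + 1) * 1 := by omega
          _ ≤ 8 * (N + 1) * (δ + 1) := Nat.mul_le_mul_left _ (by omega)
      omega
    obtain ⟨B1, hB1⟩ := hN k F σ X u θ dd J c hS m GP (δ * r) S hthr ⟨hC.hom, hcrs, hC.ndl⟩
    refine ⟨B1 + δ * r, ?_⟩
    intro K _ _ _ htr D hD z Sp hz hJ
    have hmx : (1 : ℤ) ≤ max 1 (canDeg D + Sp.card) := le_max_left _ _
    by_cases hSz : aeval (lin c z) S = 0
    · refine ⟨δ * r, S, ?_, hcrs.S0, hcrs.Sh, hSz⟩
      have h5 : ((δ * r : ℕ) : ℤ) * 1 ≤ ((B1 + δ * r : ℕ) : ℤ) *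
          max 1 (canDeg D + Sp.card) := by
        apply mul_le_mul
        · exact_mod_cast Nat.le_add_left _ _
        · exact hmx
        · norm_num
        · positivity
      rwa [mul_one] at h5
    · obtain ⟨e, Φ, he, h1, h2, h3⟩ := hB1 K htr D hD z Sp hz hJ hSz
      refine ⟨e, Φ, le_trans he ?_, h1, h2, h3⟩
      apply mul_le_mul_of_nonneg_right _ (by omega)
      exact_mod_cast Nat.le_add_right _ _
  · -- many separated nodes
    have h8 : 8 * r ≤ m := by
      have h1 : 8 ≤ N1 := by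
        rw [hN1]
        calc 8 = 8 * 1 * 1 := rfl
          _ ≤ 8 * (N + 1) * (δ + 1) := Nat.mul_le_mul (Nat.mul_le_mul_left _ (by omega)) (by omega)
      calc 8 * r ≤ N1 * r := Nat.mul_le_mul_right _ h1
        _ = r * N1 := mul_comm _ _
        _ ≤ m := hr1
    have hq : m ^ 2 ≤ 2 * N1 ^ 2 * T.card := by
      have h1 : (r + 1) ^ 2 ≤ 2 * T.card := by
        rw [hcard, Nat.choose_two_right]
        have h2 : r + 2 - 1 = r + 1 := by omega
        rw [h2]
        have h3 : (r + 1) ^ 2 + (r + 1) = (r + 2) * (r + 1) := by ring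
        have h4 : 2 ∣ (r + 2) * (r + 1) := (Nat.even_mul_succ_self (r + 1)).two_dvd.trans
          (by rw [mul_comm])
        have h5 := Nat.mul_div_cancel' h4
        omega
      have h2 := Nat.pow_le_pow_left hr2.le 2
      calc m ^ 2 ≤ ((r + 1) * N1) ^ 2 := h2
        _ = N1 ^ 2 * (r + 1) ^ 2 := by ring
        _ ≤ N1 ^ 2 * (2 * T.card) := Nat.mul_le_mul_left _ h1
        _ = 2 * N1 ^ 2 * T.card := by ring
    have hng := hm1 k F σ X u dd J hS.sfc hcor m GP hm2 hC r T hT h8 hq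
    exact hMZV k F σ X u θ dd J δ j0 c0 c hS m GP (by omega) hC hng

end Pool.Agent.H60.S2
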